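import Mathlib
import Pool.Agent.H210.CatLE

set_option autoImplicit false

/-!
# MP_5b4ede_co: the major index on the `123`-avoiding linear extensions of `EN_{s,2}`

Every linear extension of `EN_{s,2}` is a shuffle of two decreasing sequences, so avoids `123`, and
is coded by a Catalan word (`0` for the odd labels, `1` for the even ones).  Its ascents are the
peaks of the word, so `maj π = 2s(s-1) - maj w`.  The claim follows from the symmetry
`c_s(q) = q^{s(s-1)} c_s(1/q)`, which is read off from MacMahon's formula (proved here through a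
recursion).
-/

open Polynomial Finset

namespace Pool.Agent.Results.MP_5b4ede_co.MajorIndex

/-- The order `x ⪯ y` of the poset `EN_{s,t}`, for elements numbered from `0`: the tooth of `y` is at
most the tooth of `x`, and the position of `x` in its tooth is at most that of `y`. -/
def Below (t x y : ℕ) : Prop := y / t ≤ x / t ∧ x % t ≤ y % t

/-- `π` (in one-line notation, positions and values numbered from `0`) is a linear extension of
`EN_{s,t}`: `π(i) ⪯ π(j)` implies `i ≤ j`. -/
def IsLinearExtension {s t : ℕ} (π : Equiv.Perm (Fin (s * t))) : Prop :=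
  ∀ i j, Below t (π i) (π j) → i ≤ j

/-- `π` avoids the pattern `123`. -/
def Avoids123 {n : ℕ} (π : Equiv.Perm (Fin n)) : Prop :=
  ∀ i j k, i < j → j < k → ¬ (π i < π j ∧ π j < π k)

/-- The major index of a sequence: the sum of its descents.  With places numbered from `0`, the
descent between the places `i` and `i + 1` is the descent `i + 1` of the usual numbering. -/
def maj {m : ℕ} {α : Type} [LinearOrder α] (w : Fin m → α) : ℕ :=
  ∑ i : Fin m, ∑ j : Fin m, if (j : ℕ) = i + 1 ∧ w j < w i then (i : ℕ) + 1 else 0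

/-- The polynomial `EN_{s,t}(123)[q]`, the sum of `q^{maj π}` over the `123`-avoiding linear
extensions. -/
noncomputable def EN123 (s t : ℕ) : ℤ[X] := by
  classical
  exact ∑ π ∈ univ.filter
    fun π : Equiv.Perm (Fin (s * t)) => IsLinearExtension π ∧ Avoids123 π, X ^ maj π

/-- Catalan words of length `2n`; the letters `0 < 1` are `false < true`. -/
def IsCatalan (n : ℕ) (w : Fin (2 * n) → Bool) : Prop :=
  (univ.filter fun i => w i = false).card = n ∧ (univ.filter fun i => w i = true).card = n ∧
  ∀ p : ℕ, (univ.filter fun i : Fin (2 * n) => (i : ℕ) < p ∧ w i = true).card ≤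
    (univ.filter fun i : Fin (2 * n) => (i : ℕ) < p ∧ w i = false).card

/-- The polynomial `c_n(q)`, the sum of `q^{maj w}` over the Catalan words of length `2n`. -/
noncomputable def cat (n : ℕ) : ℤ[X] := by
  classical
  exact ∑ w ∈ univ.filter fun w : Fin (2 * n) → Bool => IsCatalan n w, X ^ maj w

open Pool.Agent.H210.CatMaj Pool.Agent.H210.CatLE

theorem poly_ext (P Q : ℤ[X]) (h : ∀ q : ℝ, 1 < q → aeval q P = aeval q Q) : P = Q := by
  apply Polynomial.map_injective (Int.castRingHom ℝ) Int.cast_injective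
  apply Polynomial.eq_of_infinite_eval_eq
  refine (Set.Ioi_infinite (1 : ℝ)).mono fun q hq => ?_
  have := h q hq
  rw [Polynomial.aeval_def, Polynomial.aeval_def, Polynomial.eval₂_eq_eval_map,
    Polynomial.eval₂_eq_eval_map] at this
  exact this

theorem isCatalan_iff (n : ℕ) (w : Fin (2 * n) → Bool) : IsCatalan n w ↔
    good w ∧ cb false w (2 * n) = n ∧ cb true w (2 * n) = n := by
  have h : ∀ b, cb b w (2 * n) = (univ.filter fun i => w i = b).card := by
    intro b
    rw [cb_card]
    congr 1
    ext i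
    simp
  unfold IsCatalan
  rw [h, h]
  constructor
  · rintro ⟨h1, h2, h3⟩
    refine ⟨fun p => ?_, h1, h2⟩
    rw [cb_card, cb_card]
    exact h3 p
  · rintro ⟨h1, h2, h3⟩
    refine ⟨h2, h3, fun p => ?_⟩
    have := h1 p
    rwa [cb_card, cb_card] at this

theorem aeval_cat (q : ℝ) (n : ℕ) : aeval q (cat n) = N χV q n n := by
  classical
  unfold cat
  rw [map_sum, N_eq']
  refine Finset.sum_congr ?_ fun w _ => ?_
  · ext w
    simp only [Finset.mem_filter, Finset.mem_univ, true_and]
    exact isCatalan_iff n w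
  · rw [map_pow, aeval_X, ← maj_word]
    rfl

theorem aeval_EN (q : ℝ) (hq : q ≠ 0) (s : ℕ) :
    aeval q (EN123 s 2) = q ^ (2 * s * s - s) * N χP q⁻¹ s s := by
  classical
  unfold EN123
  rw [← sum_maj (c := 0) χP (fun π h i j hij => asc_P h i j hij) q hq, map_sum]
  refine Finset.sum_congr ?_ fun w _ => ?_
  · ext π
    simp only [Finset.mem_filter, Finset.mem_univ, true_and]
    constructor
    · rintro ⟨h, _⟩ a b h1 h2
      exact h a b ⟨h1, h2⟩
    · intro h
      have h' : LE s 0 π := h
      exact ⟨fun i j hij => h i j hij.1 hij.2, fun i j k hij hjk => avoids h' i j k hij hjk⟩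
  · rw [map_pow, aeval_X]
    rfl

/-- **The identity holds for every `s`**:
`EN_{s,2}(123)[q] = q^{2 binom(s,2)} c_s(q)`. -/
theorem result (s : ℕ) : EN123 s 2 = X ^ (2 * s.choose 2) * cat s := by
  apply poly_ext
  intro q hq
  have hq0 : q ≠ 0 := by linarith
  rw [aeval_EN q hq0, map_mul, map_pow, aeval_X, aeval_cat, N_PV]
  have h := symm q hq (N χV q) (N χV q⁻¹) (rec_V q) (rec_V q⁻¹) s
  have hc : 2 * s.choose 2 + s = s * s := by
    rw [Nat.choose_two_right, Nat.mul_div_cancel' (Nat.even_mul_pred_self s).two_dvd]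
    rcases s with _ | s
    · rfl
    · simp
      ring
  have h2 : s ≤ 2 * s * s := by
    have := Nat.le_mul_self s
    nlinarith
  have e1 : q ^ (2 * s * s - s) * (q⁻¹ ^ s * N χV q⁻¹ s s) * q ^ (3 * s) =
      N χV q⁻¹ s s * q ^ (2 * s * s + s) := by
    have : q⁻¹ ^ s * q ^ s = 1 := by rw [← mul_pow, inv_mul_cancel₀ hq0, one_pow]
    calc q ^ (2 * s * s - s) * (q⁻¹ ^ s * N χV q⁻¹ s s) * q ^ (3 * s)
        = N χV q⁻¹ s s * (q⁻¹ ^ s * q ^ s) * (q ^ (2 * s * s - s) * q ^ (2 * s)) := by ring
      _ = _ := by rw [this, ← pow_add, mul_one, show 2 * s * s - s + 2 * s = 2 * s * s + s by omega]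
  have e2 : q ^ (2 * s.choose 2) * N χV q s s * q ^ (3 * s) = N χV q s s * q ^ (s * s + 2 * s) := by
    rw [← hc]
    ring
  have hne : q ^ (3 * s) ≠ 0 := pow_ne_zero _ hq0
  apply mul_right_cancel₀ hne
  rw [e1, e2, h]

end Pool.Agent.Results.MP_5b4ede_co.MajorIndex
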